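import Pool.Agent.W2helper45.UC.Stm

/-!
# Piece SPAN of project UC (helper45, MP_0f948c_co)
-/

set_option autoImplicit false

namespace Pool.Agent.W2helper84.UC

open Pool.Agent.W2helper45.UC
open Pool.Agent.X153.CH (flats rk chains)

variable {n : ℕ}

theorem mon_eq_zero {A : Type} [CommRing A] (x : Finset (Fin n) → A) (m : Ex n)
    {F : Finset (Fin n)} (hF : F ∈ m.support) (h : x F = 0) : mon x m = 0 := by
  unfold mon Finsupp.prod
  apply Finset.prod_eq_zero hF
  show x F ^ m F = 0
  rw [h, zero_pow]
  exact Finsupp.mem_support_iff.1 hF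

theorem dvd_mon {A : Type} [CommRing A] (x : Finset (Fin n) → A) (m : Ex n)
    {F : Finset (Fin n)} (hF : F ∈ m.support) : x F ∣ mon x m := by
  refine dvd_trans (dvd_pow_self (x F) (Finsupp.mem_support_iff.1 hF)) ?_
  exact Finset.dvd_prod_of_mem (fun F => x F ^ m F) hF

theorem mul_dvd_mon {A : Type} [CommRing A] (x : Finset (Fin n) → A) (m : Ex n)
    {F G : Finset (Fin n)} (hF : F ∈ m.support) (hG : G ∈ m.support) (hne : F ≠ G) :
    x F * x G ∣ mon x m := by
  have h1 : x F * x G ∣ x F ^ m F * x G ^ m G :=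
    mul_dvd_mul (dvd_pow_self (x F) (Finsupp.mem_support_iff.1 hF))
      (dvd_pow_self (x G) (Finsupp.mem_support_iff.1 hG))
  refine dvd_trans h1 ?_
  have h2 : ∏ H ∈ ({F, G} : Finset (Finset (Fin n))), x H ^ m H = x F ^ m F * x G ^ m G :=
    Finset.prod_pair hne
  rw [← h2]
  unfold mon Finsupp.prod
  apply Finset.prod_dvd_prod_of_subset
  intro H hH
  rw [Finset.mem_insert, Finset.mem_singleton] at hH
  rcases hH with rfl | rfl
  · exact hF
  · exact hG

theorem mon_add {A : Type} [CommRing A] (x : Finset (Fin n) → A) (m m' : Ex n) :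
    mon x (m + m') = mon x m * mon x m' := by
  unfold mon
  apply Finsupp.prod_add_index'
  · intro F
    exact pow_zero _
  · intro F a b
    exact pow_add _ _ _

theorem mon_single {A : Type} [CommRing A] (x : Finset (Fin n) → A) (G : Finset (Fin n)) (d : ℕ) :
    mon x (Finsupp.single G d) = x G ^ d := by
  unfold mon
  exact Finsupp.prod_single_index (pow_zero _)

theorem wt_add (r : ℕ) (m m' : Ex n) : wt r (m + m') = wt r m + wt r m' := by
  unfold wt
  apply Finsupp.sum_add_index'
  · intro F
    exact Nat.zero_mul _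
  · intro F a b
    exact Nat.add_mul _ _ _

theorem wt_single (r : ℕ) (G : Finset (Fin n)) (d : ℕ) :
    wt r (Finsupp.single G d) = d * rk r G := by
  unfold wt
  exact Finsupp.sum_single_index (Nat.zero_mul _)

theorem wt_le (r : ℕ) (m : Ex n) : wt r m ≤ r * m.degree := by
  unfold wt Finsupp.sum
  rw [Finsupp.degree_apply, Finset.mul_sum]
  apply Finset.sum_le_sum
  intro F _
  show m F * rk r F ≤ r * m F
  rw [Nat.mul_comm r]
  exact Nat.mul_le_mul_left _ (min_le_right _ _)

theorem not_isCh {r : ℕ} {A : Type} [CommRing A] {x : Finset (Fin n) → A} (hx : Rel r x)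
    {m : Ex n} (h : ¬ IsCh r m) : mon x m = 0 := by
  unfold IsCh at h
  rw [not_and_or] at h
  rcases h with h | h
  · push Not at h
    obtain ⟨F, hF, hn⟩ := h
    exact mon_eq_zero x m hF (hx.zero F hn)
  · have h3 : ∃ F ∈ m.support, ∃ G ∈ m.support, F ≠ G ∧ ¬ F ⊆ G ∧ ¬ G ⊆ F := by
      by_contra hcon
      push Not at hcon
      apply h
      intro F hF G hG hne
      by_cases h1 : F ⊆ G
      · exact Or.inl h1
      · exact Or.inr (hcon F hF G hG hne h1)
    obtain ⟨F, hF, G, hG, hne, h1, h2⟩ := h3
    have h4 := mul_dvd_mon x m hF hG hne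
    rw [hx.inc F G h1 h2] at h4
    exact zero_dvd_iff.1 h4

theorem p_span : P_REL → P_UP → P_SPAN := by
  intro hREL hUP n r A _ _ x hx hr hrn
  have key : ∀ (k : ℕ) (m : Ex n), r * m.degree - wt r m = k →
      mon x m ∈ Submodule.span ℚ
        {y | ∃ m' : Ex n, FY r m' ∧ m'.degree = m.degree ∧ y = mon x m'} := by
    intro k
    induction k using Nat.strong_induction_on with
    | _ k ih =>
      intro m hk
      by_cases hch : IsCh r m
      swap
      · rw [not_isCh hx hch]
        exact Submodule.zero_mem _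
      by_cases hfy : ∀ F ∈ m.support, m F + pr (rk r) m F < rk r F
      · exact Submodule.subset_span ⟨m, ⟨hch, hfy⟩, rfl, rfl⟩
      push Not at hfy
      obtain ⟨G, hG, hle⟩ := hfy
      -- the predecessor
      obtain ⟨F, hF, hFG, hrk⟩ : ∃ F : Finset (Fin n), (F = ∅ ∨ (F ∈ m.support ∧ IsFl r F)) ∧
          F ⊂ G ∧ pr (rk r) m G = rk r F := by
        by_cases hS : (m.support.filter fun H => H ⊂ G).Nonempty
        · obtain ⟨F, hF, hF2⟩ := Finset.exists_mem_eq_sup _ hS (rk r)
          rw [Finset.mem_filter] at hF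
          exact ⟨F, Or.inr ⟨hF.1, hch.1 F hF.1⟩, hF.2, hF2⟩
        · rw [Finset.not_nonempty_iff_eq_empty] at hS
          refine ⟨∅, Or.inl rfl, ?_, ?_⟩
          · exact Finset.empty_ssubset.2 (hch.1 G hG).1
          · unfold pr
            rw [hS]
            simp [rk]
      rw [hrk] at hle
      have hd : rk r G - rk r F ≤ m G := by omega
      obtain ⟨m₀, hm₀⟩ : ∃ m₀ : Ex n, m = m₀ + Finsupp.single G (rk r G - rk r F) := by
        refine ⟨m - Finsupp.single G (rk r G - rk r F), ?_⟩
        rw [tsub_add_cancel_of_le]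
        rw [Finsupp.single_le_iff]
        exact hd
      have hzero : mon x m₀ *
          (∑ H : Finset (Fin n) with G ⊆ H, x H) ^ (rk r G - rk r F) = 0 := by
        have h1 := hREL n r A x hx hr hrn F G (hF.imp id And.right) (hch.1 G hG) hFG
        rcases hF with rfl | ⟨hFs, hFf⟩
        · rw [if_pos rfl, one_mul] at h1
          rw [h1, mul_zero]
        · rw [if_neg hFf.1.ne_empty] at h1
          have h2 : F ∈ m₀.support := by
            rw [Finsupp.mem_support_iff] at hFs ⊢
            rw [hm₀, Finsupp.add_apply, Finsupp.single_apply, if_neg hFG.ne', add_zero] at hFs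
            exact hFs
          obtain ⟨y, hy⟩ := dvd_mon x m₀ h2
          rw [hy, mul_right_comm, h1, zero_mul]
      have hmon : mon x m = - (mon x m₀ * ((∑ H : Finset (Fin n) with G ⊆ H, x H) ^
          (rk r G - rk r F) - x G ^ (rk r G - rk r F))) := by
        rw [mul_sub, hzero, zero_sub, neg_neg]
        conv_lhs => rw [hm₀, mon_add, mon_single]
      rw [hmon]
      apply Submodule.neg_mem
      have hup := hUP n r A x hx hr hrn G (hch.1 G hG) (rk r G - rk r F) m₀
      refine Submodule.span_le.2 ?_ hup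
      rintro y ⟨m', hdeg, hw, rfl⟩
      have hdm : m'.degree = m.degree := by
        rw [hdeg, hm₀, map_add, Finsupp.degree_single]
      have hwm : wt r m < wt r m' := by
        rw [hm₀, wt_add, wt_single]
        exact hw
      have hwl := wt_le r m'
      have := ih (r * m'.degree - wt r m') (by rw [← hk]; rw [hdm] at hwl ⊢; omega) m' rfl
      rw [hdm] at this
      exact this
  intro m
  exact key _ m rfl

end Pool.Agent.W2helper84.UC
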